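import Mathlib
import Pool.Agent.H380SP.Base

/-!
# MP_80d245_co: symplectic and orthogonal contents over hook lengths, for arbitrary weights

Let `f : ℤ → K` be any function with values in a field which vanishes at `0`, does not vanish at
the positive integers and satisfies `f (-x) = ε f x`.

* The product of `f (c_sp u) / f (h u)` over the cells of a partition `λ` of `n` is `ε ^ (n / 2)`
  if `λ` has Frobenius coordinates `(a | a + 1)`, and `0` otherwise; for the orthogonal contents
  the same holds with `(a + 1 | a)`.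
* The partitions `λ` of `2 m` with nonzero product correspond to the strict partitions of `m`
  through `λ ↦ (λ_1, λ_2 - 1, …, λ_d - d + 1)`: sums with arbitrary further weights depending on
  this sequence are computed.
* In particular the sum over the partitions of `n` of the products is `ε ^ (n / 2)` times the
  number of partitions of `n` into parts `≡ 2 (mod 4)`. For `f x = x ^ 2` this is the question.
-/

namespace Pool.Agent.Results.MP_80d245_co.UniversalWeights

open Finset Pool.Agent.H380SP

/-- The product of `f (c_sp u) / f (h u)` over the cells `u` of a diagram. -/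
def prodSp {K : Type*} [Field K] (f : ℤ → K) (μ : YoungDiagram) : K :=
  ∏ u ∈ μ.cells, f (cSp μ (u.1 + 1) (u.2 + 1)) / f (hook μ (u.1 + 1) (u.2 + 1))

/-- The product of `f (c_O u) / f (h u)` over the cells `u` of a diagram. -/
def prodO {K : Type*} [Field K] (f : ℤ → K) (μ : YoungDiagram) : K :=
  ∏ u ∈ μ.cells, f (cO μ (u.1 + 1) (u.2 + 1)) / f (hook μ (u.1 + 1) (u.2 + 1))

theorem card_upper (μ : YoungDiagram) :
    (μ.cells.filter (fun c => c.1 ≤ c.2)).card = (pts μ).sum := by
  classical
  have e : μ.cells.filter (fun c => c.1 ≤ c.2) = (range (dd μ)).biUnion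
      (fun i => (Ico i (μ.rowLen i)).image (fun j => (i, j))) := by
    ext ⟨i, j⟩
    simp only [Finset.mem_filter, Finset.mem_biUnion, Finset.mem_range, Finset.mem_image,
      Finset.mem_Ico, Prod.mk.injEq, YoungDiagram.mem_cells]
    constructor
    · rintro ⟨h1, h2⟩
      have h3 := mem_row.1 h1
      exact ⟨i, lt_dd.2 (by omega), j, ⟨h2, h3⟩, rfl, rfl⟩
    · rintro ⟨i', h1, j', ⟨h2, h3⟩, rfl, rfl⟩
      exact ⟨mem_row.2 h3, h2⟩
  rw [e, Finset.card_biUnion]
  · change _ = ∑ i ∈ range (dd μ), (μ.rowLen i - i)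
    refine Finset.sum_congr rfl fun i _ => ?_
    rw [Finset.card_image_of_injective _ (fun a b h => (Prod.mk.inj h).2), Nat.card_Ico]
  · intro i _ j _ hij
    rw [Function.onFun, Finset.disjoint_left]
    intro c hc hc'
    rw [Finset.mem_image] at hc hc'
    obtain ⟨_, _, h1⟩ := hc
    obtain ⟨_, _, h2⟩ := hc'
    exact hij (congrArg Prod.fst (h1.trans h2.symm))

theorem fam_lower {μ : YoungDiagram} (hf : Fam μ) {i j : ℕ} (h : (i, j) ∈ μ) (hij : j < i) :
    cSp μ (i + 1) (j + 1) = hook μ (i + 1) (j + 1) := by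
  simp only [cSp, hook, lam, lamT, Nat.add_sub_cancel]
  have h1 := mem_row.1 h
  have h2 := mem_col.1 h
  rw [if_pos (by omega)]
  have hd : j < μ.rowLen j := mem_row.1 (μ.up_left_mem hij.le le_rfl h)
  have := hf j hd
  push_cast
  omega

theorem fam_upper {μ : YoungDiagram} (hf : Fam μ) {i j : ℕ} (h : (i, j) ∈ μ) (hij : i ≤ j) :
    cSp μ (i + 1) (j + 1) = -hook μ (i + 1) (j + 1) := by
  simp only [cSp, hook, lam, lamT, Nat.add_sub_cancel]
  have h1 := mem_row.1 h
  have h2 := mem_col.1 h
  rw [if_neg (by omega)]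
  have hd : i < μ.rowLen i := mem_row.1 (μ.up_left_mem le_rfl hij h)
  have := hf i hd
  push_cast
  omega

section
variable {K : Type*} [Field K] (f : ℤ → K) (ε : K)

open Classical in
theorem prodSp_pts (h0 : f 0 = 0) (hε : ∀ x, f (-x) = ε * f x) (hpos : ∀ x, 0 < x → f x ≠ 0)
    (μ : YoungDiagram) : prodSp f μ = if Fam μ then ε ^ (pts μ).sum else 0 := by
  unfold prodSp
  split_ifs with hf
  · have hterm : ∀ u ∈ μ.cells, f (cSp μ (u.1 + 1) (u.2 + 1)) / f (hook μ (u.1 + 1) (u.2 + 1)) =
        if u.1 ≤ u.2 then ε else 1 := by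
      rintro ⟨i, j⟩ hu
      rw [YoungDiagram.mem_cells] at hu
      have hp := hpos _ (hook_pos hu)
      split_ifs with hij
      · simp only at hij
        simp only [fam_upper hf hu hij, hε]
        field_simp
      · simp only at hij
        simp only [fam_lower hf hu (not_le.1 hij)]
        exact div_self hp
    rw [Finset.prod_congr rfl hterm, Finset.prod_ite, Finset.prod_const, Finset.prod_const_one,
      mul_one, card_upper]
  · obtain ⟨i, j, hij, hz⟩ := exists_zero hf
    apply Finset.prod_eq_zero (i := (i, j))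
    · rw [YoungDiagram.mem_cells]; exact hij
    · simp only [hz, h0, zero_div]

open Classical in
theorem prodSp_eq (h0 : f 0 = 0) (hε : ∀ x, f (-x) = ε * f x) (hpos : ∀ x, 0 < x → f x ≠ 0)
    (μ : YoungDiagram) : prodSp f μ = if Fam μ then ε ^ (μ.cells.card / 2) else 0 := by
  rw [prodSp_pts f ε h0 hε hpos]
  split_ifs with hf
  · rw [card_fam hf]
    congr 1
    omega
  · rfl

theorem card_transpose (μ : YoungDiagram) : μ.transpose.cells.card = μ.cells.card := by
  symm
  apply Finset.card_bij (fun u _ => Prod.swap u)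
  · intro u hu
    rw [YoungDiagram.mem_cells] at hu ⊢
    rw [YoungDiagram.mem_transpose, Prod.swap_swap]
    exact hu
  · intro u _ v _ h
    exact Prod.swap_injective h
  · intro u hu
    rw [YoungDiagram.mem_cells, YoungDiagram.mem_transpose] at hu
    exact ⟨u.swap, by rw [YoungDiagram.mem_cells]; exact hu, Prod.swap_swap u⟩

theorem prodO_transpose (hε : ∀ x, f (-x) = ε * f x) (μ : YoungDiagram) :
    prodO f μ = ε ^ μ.cells.card * prodSp f μ.transpose := by
  have h1 : prodO f μ = ∏ u ∈ μ.cells, ε *
      (f (cSp μ.transpose (u.2 + 1) (u.1 + 1)) / f (hook μ.transpose (u.2 + 1) (u.1 + 1))) := by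
    unfold prodO
    refine Finset.prod_congr rfl fun u _ => ?_
    rw [cO_eq, hook_eq, hε, mul_div_assoc]
  rw [h1, Finset.prod_mul_distrib, Finset.prod_const]
  congr 1
  unfold prodSp
  apply Finset.prod_bij (fun u _ => Prod.swap u)
  · intro u hu
    rw [YoungDiagram.mem_cells] at hu ⊢
    rw [YoungDiagram.mem_transpose, Prod.swap_swap]
    exact hu
  · intro u _ v _ h
    exact Prod.swap_injective h
  · intro u hu
    rw [YoungDiagram.mem_cells, YoungDiagram.mem_transpose] at hu
    exact ⟨u.swap, by rw [YoungDiagram.mem_cells]; exact hu, Prod.swap_swap u⟩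
  · intro u _
    rfl

theorem eps_sq (hε : ∀ x, f (-x) = ε * f x) (hpos : ∀ x, 0 < x → f x ≠ 0) : ε * ε = 1 := by
  have h1 := hpos 1 one_pos
  have h2 := hε (-1)
  rw [neg_neg, hε 1, ← mul_assoc] at h2
  exact mul_right_cancel₀ h1 (by rw [one_mul]; exact h2.symm)

open Classical in
theorem prodO_pts (h0 : f 0 = 0) (hε : ∀ x, f (-x) = ε * f x) (hpos : ∀ x, 0 < x → f x ≠ 0)
    (μ : YoungDiagram) :
    prodO f μ = if Fam μ.transpose then ε ^ (pts μ.transpose).sum else 0 := by
  rw [prodO_transpose f ε hε, prodSp_pts f ε h0 hε hpos]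
  split_ifs with hf
  · rw [← card_transpose, card_fam hf, pow_mul, pow_two, eps_sq f ε hε hpos, one_pow, one_mul]
  · rw [mul_zero]

open Classical in
theorem prodO_eq (h0 : f 0 = 0) (hε : ∀ x, f (-x) = ε * f x) (hpos : ∀ x, 0 < x → f x ≠ 0)
    (μ : YoungDiagram) :
    prodO f μ = if Fam μ.transpose then ε ^ (μ.cells.card / 2) else 0 := by
  rw [prodO_pts f ε h0 hε hpos]
  split_ifs with hf
  · rw [← card_transpose μ, card_fam hf]
    congr 1
    omega
  · rfl

end

/-! ### The bijection with strict partitions -/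

open Classical in
/-- Sums over the family are sums over the strict partitions. -/
theorem fam_sum {K : Type*} [Field K] (m : ℕ) (F : Multiset ℕ → K) :
    ∑ μ ∈ (YD (2 * m)).filter Fam, F (pts μ) = ∑ p ∈ Nat.Partition.distincts m, F p.parts := by
  have hsum : ∀ μ ∈ (YD (2 * m)).filter Fam, (pts μ).sum = m := by
    intro μ hμ
    rw [Finset.mem_filter, mem_YD] at hμ
    have := card_fam hμ.2
    omega
  apply Finset.sum_bij (fun μ hμ => (⟨pts μ, fun {x} hx => pts_pos μ hx, hsum μ hμ⟩ : m.Partition))
  · intro μ hμ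
    rw [Nat.Partition.distincts, Finset.mem_filter]
    exact ⟨Finset.mem_univ _, pts_nodup μ⟩
  · intro μ hμ ν hν h
    rw [Finset.mem_filter] at hμ hν
    exact pts_inj hμ.2 hν.2 (congrArg Nat.Partition.parts h)
  · intro l hl
    rw [Nat.Partition.distincts, Finset.mem_filter] at hl
    let S : Finset ℕ := ⟨l.parts, hl.2⟩
    have hSval : S.val = l.parts := rfl
    let f := S.orderEmbOfFin (k := S.card) rfl
    let b : ℕ → ℕ := fun i => if h : i < S.card then f (Fin.rev ⟨i, h⟩) else 0
    have hb : ∀ i, i < S.card → 1 ≤ b i := by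
      intro i hi
      simp only [b, dif_pos hi]
      have : f (Fin.rev ⟨i, hi⟩) ∈ S := S.orderEmbOfFin_mem rfl _
      exact l.parts_pos this
    have hstep : ∀ i j, i < j → j < S.card → b j < b i := by
      intro i j hij hj
      simp only [b, dif_pos hj, dif_pos (hij.trans hj)]
      apply f.strictMono
      rw [Fin.rev_lt_rev]
      exact hij
    have hgap : ∀ i j, i ≤ j → j < S.card → b j + (j - i) ≤ b i := by
      intro i j hij
      obtain ⟨e, rfl⟩ := Nat.exists_eq_add_of_le hij
      induction e with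
      | zero => intro _; simp
      | succ e ih =>
        intro hj
        have h1 := ih (by omega) (by omega)
        have h2 := hstep (i + e) (i + (e + 1)) (by omega) hj
        omega
    obtain ⟨μ, hf, hp⟩ := exists_diagram S.card b hb hgap
    have hparts : (Multiset.range S.card).map b = l.parts := by
      have h1 : (Finset.range S.card).image b = S := by
        ext x
        rw [Finset.mem_image]
        constructor
        · rintro ⟨i, hi, rfl⟩
          rw [Finset.mem_range] at hi
          simp only [b, dif_pos hi]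
          exact S.orderEmbOfFin_mem rfl _
        · intro hx
          have : x ∈ Set.range f := by
            rw [S.range_orderEmbOfFin rfl]; exact hx
          obtain ⟨k, rfl⟩ := this
          refine ⟨Fin.rev k, Finset.mem_range.2 (Fin.rev k).2, ?_⟩
          simp only [b]
          rw [dif_pos (Fin.rev k).2]
          show f (Fin.rev (Fin.rev k)) = f k
          rw [Fin.rev_rev]
      have hinj : Set.InjOn b (Finset.range S.card : Finset ℕ) := by
        intro i hi j hj hij
        rw [Finset.mem_coe, Finset.mem_range] at hi hj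
        rcases lt_trichotomy i j with h | h | h
        · have := hstep i j h hj; omega
        · exact h
        · have := hstep j i h hi; omega
      have h2 := congrArg Finset.val h1
      rw [Finset.image_val_of_injOn hinj] at h2
      exact h2
    rw [hparts] at hp
    have hμ : μ ∈ (YD (2 * m)).filter Fam := by
      rw [Finset.mem_filter, mem_YD]
      refine ⟨?_, hf⟩
      rw [card_fam hf, hp, l.parts_sum]
    exact ⟨μ, hμ, Nat.Partition.ext hp⟩
  · intro μ _
    rfl

theorem sum_yd {K : Type*} [Field K] (n : ℕ) (G : YoungDiagram → K) :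
    ∑ l : n.Partition, G (yd l) = ∑ μ ∈ YD n, G μ := by
  classical
  rw [YD, Finset.sum_image (fun _ _ _ _ h => yd_injective n h)]

theorem sum_transpose {K : Type*} [Field K] (n : ℕ) (G : YoungDiagram → K) :
    ∑ μ ∈ YD n, G μ.transpose = ∑ μ ∈ YD n, G μ := by
  apply Finset.sum_bij (fun μ _ => μ.transpose)
  · intro μ hμ
    rw [mem_YD] at hμ ⊢
    rw [card_transpose]; exact hμ
  · intro μ _ ν _ h
    exact YoungDiagram.transpose_eq_iff.1 h
  · intro μ hμ
    rw [mem_YD] at hμ
    exact ⟨μ.transpose, by rw [mem_YD, card_transpose]; exact hμ, μ.transpose_transpose⟩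
  · intro μ _
    rfl

section
variable {K : Type*} [Field K] (f : ℤ → K) (ε : K)

theorem refined_aux (h0 : f 0 = 0) (hε : ∀ x, f (-x) = ε * f x)
    (hpos : ∀ x, 0 < x → f x ≠ 0) (m : ℕ) (F : Multiset ℕ → K) :
    ∑ μ ∈ YD (2 * m), F (pts μ) * prodSp f μ =
      ε ^ m * ∑ p ∈ Nat.Partition.distincts m, F p.parts := by
  classical
  rw [← fam_sum, Finset.mul_sum, Finset.sum_filter]
  refine Finset.sum_congr rfl fun μ hμ => ?_
  rw [prodSp_pts f ε h0 hε hpos]
  split_ifs with hf
  · rw [mem_YD] at hμ
    have h1 := card_fam hf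
    have h2 : (pts μ).sum = m := by omega
    rw [h2, mul_comm]
  · rw [mul_zero]

theorem refinedSp (h0 : f 0 = 0) (hε : ∀ x, f (-x) = ε * f x)
    (hpos : ∀ x, 0 < x → f x ≠ 0) (m : ℕ) (F : Multiset ℕ → K) :
    ∑ l : (2 * m).Partition, F (pts (yd l)) * prodSp f (yd l) =
      ε ^ m * ∑ p ∈ Nat.Partition.distincts m, F p.parts := by
  rw [sum_yd (2 * m) (fun μ => F (pts μ) * prodSp f μ), refined_aux f ε h0 hε hpos]

theorem refinedO (h0 : f 0 = 0) (hε : ∀ x, f (-x) = ε * f x)
    (hpos : ∀ x, 0 < x → f x ≠ 0) (m : ℕ) (F : Multiset ℕ → K) :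
    ∑ l : (2 * m).Partition, F (pts (yd l).transpose) * prodO f (yd l) =
      ε ^ m * ∑ p ∈ Nat.Partition.distincts m, F p.parts := by
  have h1 : ∀ μ ∈ YD (2 * m), F (pts μ.transpose) * prodO f μ =
      (fun ν => F (pts ν) * prodSp f ν) μ.transpose := by
    intro μ hμ
    rw [mem_YD] at hμ
    simp only
    rw [prodO_transpose f ε hε, hμ, pow_mul, pow_two, eps_sq f ε hε hpos, one_pow, one_mul]
  rw [sum_yd (2 * m) (fun μ => F (pts μ.transpose) * prodO f μ), Finset.sum_congr rfl h1,
    sum_transpose (2 * m) (fun ν => F (pts ν) * prodSp f ν), refined_aux f ε h0 hε hpos]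

theorem odd_zero (h0 : f 0 = 0) (hε : ∀ x, f (-x) = ε * f x)
    (hpos : ∀ x, 0 < x → f x ≠ 0) (μ : YoungDiagram) (h : μ.cells.card % 2 = 1) :
    prodSp f μ = 0 ∧ prodO f μ = 0 := by
  classical
  constructor
  · rw [prodSp_pts f ε h0 hε hpos]
    split_ifs with hf
    · have := card_fam hf; omega
    · rfl
  · rw [prodO_pts f ε h0 hε hpos]
    split_ifs with hf
    · have := card_fam hf
      rw [card_transpose] at this
      omega
    · rfl

theorem card_yd {n : ℕ} (l : n.Partition) : (yd l).cells.card = n := by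
  classical
  have : yd l ∈ YD n := by
    rw [YD, Finset.mem_image]
    exact ⟨l, Finset.mem_univ _, rfl⟩
  exact mem_YD.1 this

theorem sums (h0 : f 0 = 0) (hε : ∀ x, f (-x) = ε * f x)
    (hpos : ∀ x, 0 < x → f x ≠ 0) (n : ℕ) :
    ∑ l : n.Partition, prodSp f (yd l) = ε ^ (n / 2) * (twoModFour n : K) ∧
    ∑ l : n.Partition, prodO f (yd l) = ε ^ (n / 2) * (twoModFour n : K) := by
  rcases Nat.even_or_odd' n with ⟨m, rfl | rfl⟩
  · have e : 2 * m / 2 = m := by omega
    have h1 := refinedSp f ε h0 hε hpos m (fun _ => 1)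
    have h2 := refinedO f ε h0 hε hpos m (fun _ => 1)
    simp only [one_mul, Finset.sum_const, nsmul_eq_mul, mul_one] at h1 h2
    rw [two_even, Nat.Partition.card_odds_eq_card_distincts, e]
    exact ⟨h1, h2⟩
  · rw [two_odd]
    simp only [Nat.cast_zero, mul_zero]
    constructor
    · apply Finset.sum_eq_zero
      intro l _
      exact (odd_zero f ε h0 hε hpos (yd l) (by rw [card_yd]; omega)).1
    · apply Finset.sum_eq_zero
      intro l _
      exact (odd_zero f ε h0 hε hpos (yd l) (by rw [card_yd]; omega)).2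

end

theorem squares (n : ℕ) : Ssp n = twoModFour n ∧ SO n = twoModFour n := by
  have h := sums (fun x : ℤ => ((x : ℚ)) ^ 2) (1 : ℚ) (by norm_num)
    (by intro x; push_cast; ring) (by intro x hx; positivity) n
  rw [one_pow, one_mul] at h
  constructor
  · rw [← h.1, Ssp]
    refine Finset.sum_congr rfl fun l _ => ?_
    unfold prodSp
    exact Finset.prod_congr rfl fun u _ => div_pow _ _ _
  · rw [← h.2, SO]
    refine Finset.sum_congr rfl fun l _ => ?_
    unfold prodO
    exact Finset.prod_congr rfl fun u _ => div_pow _ _ _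

open Classical in
/-- **Contents over hook lengths with arbitrary weights.**

(1) The question: `S_sp(n)` and `S_O(n)` are the number of partitions of `n` into parts congruent
to `2` modulo `4`.

For every field `K` and every function `f : ℤ → K` with `f 0 = 0`, `f x ≠ 0` for `x > 0` and
`f (-x) = ε f x`:

(2) for every partition `λ` of `n` the product of `f (c_sp u) / f (h u)` over its cells is
`ε ^ (n / 2)` if `λᵗ_i = λ_i + 1` for every diagonal cell `(i, i)`, and `0` otherwise, and the
product of `f (c_O u) / f (h u)` is `ε ^ (n / 2)` if `λ_i = λᵗ_i + 1` for every diagonal cell, and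
`0` otherwise;

(3) for every function `F` of multisets, the sum over the partitions `λ` of `2 m` of
`F (λ_1, λ_2 - 1, …, λ_d - d + 1) ∏ f (c_sp u) / f (h u)`, `d` the number of diagonal cells, is
`ε ^ m` times the sum of `F` over the partitions of `m` into distinct parts; and the same for `c_O`
with `(λᵗ_1, λᵗ_2 - 1, …, λᵗ_d - d + 1)`;

(4) the sum over the partitions of `n` of `∏ f (c_sp u) / f (h u)`, and the sum of
`∏ f (c_O u) / f (h u)`, are `ε ^ (n / 2)` times the number of partitions of `n` into parts
congruent to `2` modulo `4`. -/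
theorem result :
    (∀ n : ℕ, Ssp n = twoModFour n ∧ SO n = twoModFour n) ∧
    ∀ (K : Type) [Field K] (f : ℤ → K) (ε : K), f 0 = 0 → (∀ x, f (-x) = ε * f x) →
      (∀ x, 0 < x → f x ≠ 0) →
      (∀ (n : ℕ) (l : n.Partition),
        prodSp f (yd l) = (if ∀ i, i < (yd l).rowLen i → (yd l).colLen i = (yd l).rowLen i + 1
          then ε ^ (n / 2) else 0) ∧
        prodO f (yd l) = (if ∀ i, i < (yd l).colLen i → (yd l).rowLen i = (yd l).colLen i + 1
          then ε ^ (n / 2) else 0)) ∧
      (∀ (m : ℕ) (F : Multiset ℕ → K),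
        ∑ l : (2 * m).Partition, F (pts (yd l)) * prodSp f (yd l) =
          ε ^ m * ∑ p ∈ Nat.Partition.distincts m, F p.parts ∧
        ∑ l : (2 * m).Partition, F (pts (yd l).transpose) * prodO f (yd l) =
          ε ^ m * ∑ p ∈ Nat.Partition.distincts m, F p.parts) ∧
      (∀ n : ℕ,
        ∑ l : n.Partition, prodSp f (yd l) = ε ^ (n / 2) * (twoModFour n : K) ∧
        ∑ l : n.Partition, prodO f (yd l) = ε ^ (n / 2) * (twoModFour n : K)) := by
  refine ⟨squares, ?_⟩
  intro K _ f ε h0 hε hpos
  refine ⟨?_, ?_, ?_⟩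
  · intro n l
    constructor
    · have h := prodSp_eq f ε h0 hε hpos (yd l)
      rw [card_yd] at h
      rw [h]
      rfl
    · have h := prodO_eq f ε h0 hε hpos (yd l)
      rw [card_yd] at h
      have e : Fam (yd l).transpose ↔
          ∀ i, i < (yd l).colLen i → (yd l).rowLen i = (yd l).colLen i + 1 := by
        unfold Fam
        simp only [YoungDiagram.rowLen_transpose, YoungDiagram.colLen_transpose]
      rw [h]
      by_cases hf : Fam (yd l).transpose
      · rw [if_pos hf, if_pos (e.1 hf)]
      · rw [if_neg hf, if_neg (fun hh => hf (e.2 hh))]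
  · intro m F
    exact ⟨refinedSp f ε h0 hε hpos m F, refinedO f ε h0 hε hpos m F⟩
  · intro n
    exact sums f ε h0 hε hpos n

end Pool.Agent.Results.MP_80d245_co.UniversalWeights
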